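import Pool.Agent.H.MP_5a4e9f_an.L

open Set Filter Topology MeasureTheory

namespace Pool.Agent.Results.MP_5a4e9f_an.Yes

def Conv (g : ℕ → Equiv.Perm UnitAddCircle) (I : Set ℝ) : Prop :=
  ∃ F : ℕ → ℝ → ℝ, (∀ n, ContDiff ℝ 1 (F n) ∧ ∀ x : ℝ, g n (x : UnitAddCircle) = (F n x : ℝ)) ∧
    TendstoUniformlyOn F id atTop I ∧
    TendstoUniformlyOn (fun n => deriv (F n)) (fun _ => 1) atTop I

open H.MP_5a4e9f_an in
theorem result : ∃ G : Subgroup (Equiv.Perm UnitAddCircle), G.FG ∧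
    (∀ g ∈ G, ∃ F : ℝ → ℝ, ContDiff ℝ 1 F ∧ ∀ x : ℝ, g (x : UnitAddCircle) = (F x : ℝ)) ∧
    (∀ μ : Measure UnitAddCircle, IsProbabilityMeasure μ → ∃ g ∈ G, μ.map g ≠ μ) ∧
    (∀ g : ℕ → Equiv.Perm UnitAddCircle, (∀ n, g n ∈ G) → Conv g univ → ∀ᶠ n in atTop, g n = 1) ∧
    ∀ a b : ℝ, a < b → b < a + 1 → ∃ g : ℕ → Equiv.Perm UnitAddCircle, (∀ n, g n ∈ G) ∧
      Conv g (Icc a b) ∧ ∀ n, ∃ x ∈ Ioo a b, g n (x : UnitAddCircle) ≠ x := by
  refine ⟨GG, (Subgroup.fg_iff _).2 ⟨_, rfl, Set.toFinite _⟩, fun g hg => ?_, fun μ _ => ?_,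
    fun g hg ⟨F, hF, c1, c2⟩ => ?_, fun a b ab ba => ?_⟩
  · obtain ⟨f, hf, r⟩ := up hg
    exact ⟨_, sc_diff (G_le hf), r⟩
  · by_contra hc
    push Not at hc
    exact nonel μ (hc _ (Subgroup.subset_closure (by simp))) (hc _ (Subgroup.subset_closure (by simp)))
  · filter_upwards [Metric.tendstoUniformlyOn_iff.1 c1 (1 / 24) (by norm_num),
      Metric.tendstoUniformlyOn_iff.1 c2 (1 / 3) (by norm_num)] with n a b
    refine disc' (hg n) (hF n).1 (hF n).2 (fun x => ?_) fun x => ?_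
    · rw [abs_sub_comm]; exact a x trivial
    · rw [abs_sub_comm]; exact (b x trivial).le
  · obtain ⟨f, hf, c, d⟩ := bad (a := 24 * a) (b := 24 * b) (by linarith) (by linarith)
    choose g hg r using fun n => down (hf n)
    refine ⟨g, hg, ⟨_, fun n => ⟨sc_diff (G_le (hf n)), r n⟩, ?_, ?_⟩, fun n => ?_⟩
    · refine Metric.tendstoUniformlyOn_iff.2 fun ε hε => (c ε hε).mono fun n hn x hx => ?_
      have := abs_lt.1 (hn (24 * x) ⟨by linarith [hx.1], by linarith [hx.2]⟩).1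
      rw [Real.dist_eq, abs_lt, id]
      constructor <;> linarith [this.1, this.2]
    · refine Metric.tendstoUniformlyOn_iff.2 fun ε hε => (c ε hε).mono fun n hn x hx => ?_
      rw [Real.dist_eq, abs_sub_comm, sc_der (G_le (hf n))]
      exact (hn (24 * x) ⟨by linarith [hx.1], by linarith [hx.2]⟩).2
    · obtain ⟨x, x1, x2, x3⟩ := d n
      refine ⟨x / 24, ⟨by linarith [x1.1], by linarith [x1.2]⟩, fun e => x3 ?_⟩
      rw [r n, mul_div_cancel₀ x (by norm_num)] at e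
      obtain ⟨m, hm⟩ := coe_eq e
      have m1 : m < 1 := by exact_mod_cast (show (m:ℝ) < 1 by linarith [x1.2, x2.1])
      have m2 : -1 < m := by exact_mod_cast (show -1 < (m:ℝ) by linarith [x1.1, x2.2])
      obtain rfl : m = 0 := by omega
      push_cast at hm
      linarith

end Pool.Agent.Results.MP_5a4e9f_an.Yes
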